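import Pool.Agent.Lib.MP_ae5b4e_an_ATK.Win
import Pool.Agent.Lib.MP_ae5b4e_an_A2.Rate
import Pool.Agent.Lib.MP_ae5b4e_an_A3.Fbi
import Pool.Agent.Lib.MP_ae5b4e_an_A4.Fin

/-!
# MP_ae5b4e_an, POR (iii), STEP A, block A5 (partner): definitions

`NDf .. i`: the first mode of the kick at the branch point `Tb (i + 1)` of a slit box is not deficient,
for every choice of the boxes and of the exact families (`ATK.tip_win` gives it at a tip, block AZ at a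
point `Z_k`).
-/

set_option autoImplicit false

noncomputable section

namespace Pool.Agent.MP_ae5b4e_an_A5

open Complex Set Filter Topology Metric
open Pool.Agent.MP_ae5b4e_an_NB2 (Sys)
open Pool.Agent.MP_ae5b4e_an_PB (Base)
open Pool.Agent.MP_ae5b4e_an_M
open Pool.Agent.MP_ae5b4e_an_A1
open Pool.Agent.MP_ae5b4e_an_A2 (Contact)
open Pool.Agent.MP_ae5b4e_an_A3 (Dfc)
open Pool.Agent.MP_ae5b4e_an_ATK (TipO)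

/-- the first mode of the kick at the branch point `i + 1` is not deficient -/
def NDf (Y : Sys) (h : ℝ) (v : ℂ → ℝ) (L : ℂ × ℂ → ℂ) (U : Ultrafilter ℕ) (x c V : ℕ → ℝ)
    (g₀ x₁ x₂ b : ℝ) (P : ℕ) (Tb : ℕ → ℂ → ℂ) (Λ : ℂ × ℂ → ℂ) (i : ℕ) : Prop :=
  ∀ ξ : ℕ → ℂ × ℂ → ℂ, XI U (fun n => Zn Y h x V n) (fun n => c n / V n) ξ →
  ∀ (Vm : ℂ → ℝ) (r₀ : ℝ) (X : ℕ → ℝ),
    Sd (vI v U c V) Vm g₀ r₀ x₁ x₂ (vI v U c V g₀) b P Tb X →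
    Slt (DI v U c V) (LI L h U x c V) Λ (SB g₀ r₀ x₁ x₂ (vI v U c V g₀) b P Tb) →
  ∀ w r : ℝ, 0 < r →
    (∀ j ≤ P, Bo (fun j => X j / g₀) (-vI v U c V g₀ / g₀) w g₀ (2 * r) j ⊆
      {p | (p.1 * p.2, p.2) ∈ SB g₀ r₀ x₁ x₂ (vI v U c V g₀) b P Tb}) →
  ∀ (Z : ℕ → ℕ → ℂ × ℂ → ℂ × ℂ) (f g A B : ℕ → ℕ → ℂ × ℂ → ℂ),
    BC U (fun n => c n / V n) g₀ r (-vI v U c V g₀ / g₀ - w / 2) P (TX Vm g₀ X) (YB Tb) f g A B →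
    BZ U (fun n => c n / V n) (gx (fun n => c n / V n) ξ) (zf Λ)
      (lab (fun n => c n / V n) (fun n => Ln L h x c V n)) g₀ r (-vI v U c V g₀ / g₀)
      (-vI v U c V g₀ / g₀ - w / 2) w P (fun j => X j / g₀) (TX Vm g₀ X) (YB Tb) Z f g A B →
  ∀ y : ℝ, -vI v U c V g₀ / g₀ - w / 2 < y → y < -vI v U c V g₀ / g₀ →
    ¬Dfc U (fun n => c n / V n) y (YB Tb (i + 1)) g₀ (B (i + 1))

variable {Y : Sys} {h R C0 : ℝ} {v : ℂ → ℝ} {G L : ℂ × ℂ → ℂ} {U : Ultrafilter ℕ} {β C1 : ℝ}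
  {c V : ℕ → ℝ}

/-- tips -/
theorem ndf_tip (hB : Base Y h R C0 v G L) (HW : Win v U β C1 c V) (x : ℕ → ℝ)
    {g₀ x₁ x₂ b : ℝ} {P : ℕ} {Tb : ℕ → ℂ → ℂ} {Λ : ℂ × ℂ → ℂ} {i : ℕ} (hi : i < P) {lb : ℂ}
    (hT : TipO (qI Y h U x c V) Λ g₀ (Tb (i + 1) g₀) lb) :
    NDf Y h v L U x c V g₀ x₁ x₂ b P Tb Λ i := by
  intro ξ hξ Vm r₀ X hSd hS w r hr hBo Z f g A B hBC hBZ y h1 h2
  exact Pool.Agent.MP_ae5b4e_an_ATK.tip_win hB HW x hξ hSd hS hr hBo hBC hBZ hi hT h1 h2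

end Pool.Agent.MP_ae5b4e_an_A5
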