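import Pool.Agent.Lib.MP_ae5b4e_an_A5.Defs

/-!
# MP_ae5b4e_an, POR (iii), STEP A, block A5: geometry of the stretch
-/

set_option autoImplicit false

noncomputable section

namespace Pool.Agent.MP_ae5b4e_an_A5

open Complex Set Filter Topology Metric
open Pool.Agent.MP_ae5b4e_an_NB2 (Sys)
open Pool.Agent.MP_ae5b4e_an_PB (Base)
open Pool.Agent.MP_ae5b4e_an_M
open Pool.Agent.MP_ae5b4e_an_A1
open Pool.Agent.MP_ae5b4e_an_A2 (Contact slope_S rate_tip rate_top)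
open Pool.Agent.MP_ae5b4e_an_A3 (Dfc)

variable {Y : Sys} {h R C0 : ℝ} {v : ℂ → ℝ} {G L : ℂ × ℂ → ℂ} {U : Ultrafilter ℕ} {β C1 : ℝ}
  {c V : ℕ → ℝ}

/-- positive minimum of finitely many numbers -/
theorem exists_lb (P : ℕ) {ρ : ℕ → ℝ} (h : ∀ i < P, 0 < ρ i) : ∃ m : ℝ, 0 < m ∧ ∀ i < P, m ≤ ρ i := by
  induction P with
  | zero => exact ⟨1, one_pos, fun i hi => absurd hi (Nat.not_lt_zero i)⟩
  | succ P ih =>
    obtain ⟨m, hm, hmi⟩ := ih fun i hi => h i (hi.trans (Nat.lt_succ_self P))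
    refine ⟨min m (ρ P), lt_min hm (h P (Nat.lt_succ_self P)), fun i hi => ?_⟩
    rcases Nat.lt_succ_iff_lt_or_eq.1 hi with h1 | h1
    · exact (min_le_left _ _).trans (hmi i h1)
    · rw [h1]
      exact min_le_right _ _

/-- maximum of finitely many numbers -/
theorem exists_ub (P : ℕ) (K : ℕ → ℝ) : ∃ M : ℝ, 0 < M ∧ ∀ i < P, K i ≤ M := by
  induction P with
  | zero => exact ⟨1, one_pos, fun i hi => absurd hi (Nat.not_lt_zero i)⟩
  | succ P ih =>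
    obtain ⟨m, hm, hmi⟩ := ih
    refine ⟨max m (K P), lt_max_of_lt_left hm, fun i hi => ?_⟩
    rcases Nat.lt_succ_iff_lt_or_eq.1 hi with h1 | h1
    · exact (hmi i h1).trans (le_max_left _ _)
    · rw [h1]
      exact le_max_right _ _

/-- restriction of the slit box to a smaller disc of parameters -/
theorem slt_mono {DI : Set (ℂ × ℂ)} {LI Λ : ℂ × ℂ → ℂ} {g₀ r r' x₁ x₂ v₀ b : ℝ} {P : ℕ}
    {Tb : ℕ → ℂ → ℂ} (hS : Slt DI LI Λ (SB g₀ r x₁ x₂ v₀ b P Tb)) (hr : r' ≤ r)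
    (ho : IsOpen (SB g₀ r' x₁ x₂ v₀ b P Tb)) : Slt DI LI Λ (SB g₀ r' x₁ x₂ v₀ b P Tb) := by
  have hsub : SB g₀ r' x₁ x₂ v₀ b P Tb ⊆ SB g₀ r x₁ x₂ v₀ b P Tb := fun p hp =>
    ⟨ball_subset_ball hr hp.1, hp.2⟩
  refine ⟨ho, hS.an.mono hsub, fun p hp => hS.im p (hsub hp), fun p hp => hS.ne p (hsub hp), ?_,
    ?_, fun p hp => hS.eq p (hsub hp)⟩
  · intro γ
    by_cases hγ : γ ∈ ball (g₀ : ℂ) r'
    · have e1 : {τ : ℂ | (τ, γ) ∈ SB g₀ r' x₁ x₂ v₀ b P Tb} =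
          {τ : ℂ | (τ, γ) ∈ SB g₀ r x₁ x₂ v₀ b P Tb} := by
        ext τ
        constructor
        · intro h1
          exact hsub h1
        · intro h1
          exact ⟨hγ, h1.2⟩
      rw [e1]
      exact hS.conn γ
    · have e1 : {τ : ℂ | (τ, γ) ∈ SB g₀ r' x₁ x₂ v₀ b P Tb} = ∅ := by
        ext τ
        simp only [mem_ofPred_eq, mem_empty_iff_false, iff_false]
        intro h1
        exact hγ h1.1
      rw [e1]
      exact isPreconnected_empty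
  · intro p hp
    obtain ⟨τ, h1, h2⟩ := hS.meet p (hsub hp)
    exact ⟨τ, ⟨hp.1, h1.2⟩, h2⟩

/-- new abscissas and a new majorant -/
theorem sd_change {vi Vm Vm' : ℂ → ℝ} {g₀ r r' x₁ x₂ v₀ b e : ℝ} {P : ℕ} {Tb : ℕ → ℂ → ℂ}
    {X : ℕ → ℝ} (h : Sd vi Vm g₀ r x₁ x₂ v₀ b P Tb X) (hP : 0 < P) (he : 0 < e)
    (hr' : 0 < r') (hr : r' ≤ r)
    (hVc : ContinuousOn Vm' (ball (g₀ : ℂ) r'))
    (hV : ∀ γ ∈ ball (g₀ : ℂ) r', vi γ ≤ Vm' γ) (hV0 : v₀ ≤ Vm' g₀) :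
    ∃ X' : ℕ → ℝ, Sd vi Vm' g₀ r' x₁ x₂ v₀ b P Tb X' ∧ X' 0 ≤ x₁ + e ∧ x₂ - e ≤ X' P := by
  obtain ⟨X', hX'⟩ : ∃ X' : ℕ → ℝ, X' = fun j => if j = 0 then min (X 0) (x₁ + e) else
      if j = P then max (X P) (x₂ - e) else X j := ⟨_, rfl⟩
  have h0 : X' 0 = min (X 0) (x₁ + e) := by
    rw [hX']
    exact if_pos rfl
  have hPe : X' P = max (X P) (x₂ - e) := by
    rw [hX']
    show (if P = 0 then min (X 0) (x₁ + e) else if P = P then max (X P) (x₂ - e) else X P) = _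
    rw [if_neg hP.ne', if_pos rfl]
  have hle : ∀ i < P, X' i ≤ X i := by
    intro i hi
    by_cases h1 : i = 0
    · rw [h1, h0]
      exact min_le_left _ _
    · have e1 : X' i = X i := by
        rw [hX']
        show (if i = 0 then min (X 0) (x₁ + e) else if i = P then max (X P) (x₂ - e) else X i) = _
        rw [if_neg h1, if_neg hi.ne]
      rw [e1]
  have hge : ∀ i, 0 < i → i ≤ P → X i ≤ X' i := by
    intro i h1 hi
    by_cases h2 : i = P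
    · rw [h2, hPe]
      exact le_max_left _ _
    · have e1 : X' i = X i := by
        rw [hX']
        show (if i = 0 then min (X 0) (x₁ + e) else if i = P then max (X P) (x₂ - e) else X i) = _
        rw [if_neg h1.ne', if_neg h2]
      rw [e1]
  have hbs : ball (g₀ : ℂ) r' ⊆ ball (g₀ : ℂ) r := ball_subset_ball hr
  refine ⟨X', ⟨h.g_pos, hr', hr.trans_lt h.r_lt, h.b_pos, ?_, ?_, ?_, ?_, h.Tb_im, ?_, ?_, hVc, hV,
    fun i hi γ hγ => h.Tb_vi i hi γ (hbs hγ), hV0⟩, ?_, ?_⟩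
  · rw [h0]
    exact lt_min h.X_l (by linarith)
  · rw [hPe]
    exact max_lt h.X_r (by linarith)
  · intro i hi
    exact ((hle i hi).trans_lt (h.X_lt i hi)).trans_le (hge (i + 1) (Nat.succ_pos i) hi)
  · intro i hi
    exact (h.Tb_cont i hi).mono hbs
  · intro i hi
    exact (hle i hi).trans_lt (h.Tb_l i hi)
  · intro i hi
    exact (h.Tb_r i hi).trans_le (hge (i + 1) (Nat.succ_pos i) hi)
  · rw [h0]
    exact min_le_right _ _
  · rw [hPe]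
    exact le_max_right _ _

/-- a branch point in a given interval of length `> 2 C g₀` -/
theorem exists_mid (hB : Base Y h R C0 v G L) (HW : Win v U β C1 c V) (x : ℕ → ℝ)
    {g₀ r₀ x₁ x₂ b p C B rc : ℝ} {P : ℕ} {Tb : ℕ → ℂ → ℂ} {X : ℕ → ℝ} {Vm : ℂ → ℝ}
    {Λ : ℂ × ℂ → ℂ} (hrc : 0 < rc) (hBn : 0 ≤ B) (hcon : Contact (vI v U c V) C B rc g₀ p)
    (hSd : Sd (vI v U c V) Vm g₀ r₀ x₁ x₂ (vI v U c V g₀) b P Tb X)
    (hS : Slt (DI v U c V) (LI L h U x c V) Λ (SB g₀ r₀ x₁ x₂ (vI v U c V g₀) b P Tb))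
    {y₁ y₂ : ℝ} (h1 : x₁ ≤ y₁) (h2 : y₂ ≤ x₂) (hlen : 2 * C * g₀ < y₂ - y₁) :
    ∃ i < P, y₁ ≤ (Tb (i + 1) g₀).re ∧ (Tb (i + 1) g₀).re ≤ y₂ := by
  by_contra hno
  push Not at hno
  have hC : 0 ≤ C := (abs_nonneg p).trans hcon.1
  -- a radius on which no branch point enters
  have hloc : ∀ i : ℕ, ∃ ρ : ℝ, 0 < ρ ∧ (i < P → ∀ γ ∈ ball (g₀ : ℂ) ρ,
      (Tb (i + 1) γ).re < y₁ ∨ y₂ < (Tb (i + 1) γ).re) := by
    intro i
    by_cases hi : i < P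
    · have hc : ContinuousAt (Tb (i + 1)) (g₀ : ℂ) :=
        (hSd.Tb_cont i hi).continuousAt (isOpen_ball.mem_nhds (mem_ball_self hSd.r_pos))
      have hc2 : ContinuousAt (fun γ => (Tb (i + 1) γ).re) (g₀ : ℂ) :=
        Complex.continuous_re.continuousAt.comp hc
      have h3 : (Tb (i + 1) g₀).re < y₁ ∨ y₂ < (Tb (i + 1) g₀).re := by
        by_cases h4 : y₁ ≤ (Tb (i + 1) g₀).re
        · exact Or.inr (hno i hi h4)
        · exact Or.inl (not_le.1 h4)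
      have h5 : ∀ᶠ γ in 𝓝 (g₀ : ℂ), (Tb (i + 1) γ).re < y₁ ∨ y₂ < (Tb (i + 1) γ).re := by
        rcases h3 with h3 | h3
        · filter_upwards [hc2.eventually (isOpen_Iio.mem_nhds h3)] with γ hγ using Or.inl hγ
        · filter_upwards [hc2.eventually (isOpen_Ioi.mem_nhds h3)] with γ hγ using Or.inr hγ
      obtain ⟨ρ, hρ, h6⟩ := Metric.eventually_nhds_iff_ball.1 h5
      exact ⟨ρ, hρ, fun _ => h6⟩
    · exact ⟨1, one_pos, fun h => absurd h hi⟩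
  choose ρ hρ hρ' using hloc
  obtain ⟨m, hm, hmi⟩ := exists_lb P fun i _ => hρ i
  refine Pool.Agent.MP_ae5b4e_an_A4.no_regular hB HW x (r := min m r₀) hSd.g_pos
    (lt_min hm hSd.r_pos) hSd.b_pos hC hBn hrc hcon.2 hlen hS ?_
  intro q hq a1 a2 a3
  refine ⟨ball_subset_ball (min_le_right _ _) hq, by linarith, by linarith, a3, ?_⟩
  rintro i hi ⟨e1, -⟩
  rcases hρ' i hi q.2 (ball_subset_ball ((min_le_left _ _).trans (hmi i hi)) hq) with h3 | h3 <;>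
    linarith

end Pool.Agent.MP_ae5b4e_an_A5
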