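import Pool.Agent.Lib.MP_ae5b4e_an_A5.Geo

/-!
# MP_ae5b4e_an, POR (iii), STEP A, block A5: PARTNER
-/

set_option autoImplicit false

noncomputable section

namespace Pool.Agent.MP_ae5b4e_an_A5

open Complex Set Filter Topology Metric
open Pool.Agent.MP_ae5b4e_an_NB2 (Sys)
open Pool.Agent.MP_ae5b4e_an_PB (Base)
open Pool.Agent.MP_ae5b4e_an_M
open Pool.Agent.MP_ae5b4e_an_A1
open Pool.Agent.MP_ae5b4e_an_A2 (Contact slope_S rate_tip rate_top)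
open Pool.Agent.MP_ae5b4e_an_A3 (Dfc low fbi)
open Pool.Agent.MP_ae5b4e_an_ATK (TipO)

variable {Y : Sys} {h R C0 : ℝ} {v : ℂ → ℝ} {G L : ℂ × ℂ → ℂ} {U : Ultrafilter ℕ} {β C1 : ℝ}
  {c V : ℕ → ℝ}

/-- the contact parabola -/
def par (v₀ p C B g₀ : ℝ) (γ : ℂ) : ℝ :=
  v₀ + p * (γ - g₀).re + C * |(γ - g₀).im| + B * ‖γ - g₀‖ ^ 2

theorem par_cont (v₀ p C B g₀ : ℝ) : Continuous (par v₀ p C B g₀) := by
  unfold par
  have h1 := Complex.continuous_re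
  have h2 := Complex.continuous_im
  fun_prop

theorem par_contact {v₀ p C B g₀ rc : ℝ} (hp : |p| ≤ C) :
    Contact (par v₀ p C B g₀) C B rc g₀ p := by
  refine ⟨hp, fun z _ => ?_⟩
  have e1 : par v₀ p C B g₀ ((g₀ : ℂ) + z) = v₀ + p * z.re + C * |z.im| + B * ‖z‖ ^ 2 := by
    unfold par
    rw [add_sub_cancel_left]
  have e2 : par v₀ p C B g₀ (g₀ : ℂ) = v₀ := by
    unfold par
    simp
  rw [e1, e2]

/-- the heights of the branches near the contact point -/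
theorem rate_YB {v : ℂ → ℝ} {C B rc g p : ℝ} (hrc : 0 < rc) (hg : 0 < g) (hc : Contact v C B rc g p)
    {T : ℂ → ℂ} (hT : AnalyticAt ℂ T g) (h0 : (T g).im = -v g)
    (hle : ∀ᶠ γ in 𝓝 (g : ℂ), -(T γ).im ≤ v γ) :
    ∃ K > 0, ∃ ρ > 0, ∀ γ : ℂ, ‖γ - g‖ < ρ →
      |(T γ / γ).im - low (-v g / g) ((g * p - v g) / g ^ 2) ((T g - g * deriv T g).re / g ^ 2) 0 0
        g γ| ≤ K * ‖γ - g‖ ^ 2 := by
  obtain ⟨K, hK, ρ, hρ, h1⟩ := rate_tip hrc hg hc hT h0 hle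
  refine ⟨K, hK, ρ, hρ, fun γ hγ => ?_⟩
  have h2 := h1 (γ - g) hγ
  rw [add_sub_cancel] at h2
  unfold low
  have e1 : (T γ / γ).im - (-v g / g - (g * p - v g) / g ^ 2 * (γ - ↑g).re -
      (T ↑g - ↑g * deriv T ↑g).re / g ^ 2 * (γ - ↑g).im - 0 * |(γ - ↑g).im| - 0 * ‖γ - ↑g‖ ^ 2) =
      -(-(T γ / γ).im - (v g / g + ((g * p - v g) * (γ - g).re +
        (T g - g * deriv T g).re * (γ - g).im) / g ^ 2)) := by
    ring
  rw [e1, abs_neg]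
  exact h2

/-- the heights of the labels near the contact point -/
theorem rate_TX {v₀ p C B rc g : ℝ} (hrc : 0 < rc) (hg : 0 < g) (hp : |p| ≤ C) (hB : 0 ≤ B)
    {M : ℝ} (hM : 0 ≤ M) :
    ∃ K > 0, ∃ ρ > 0, ∀ X : ℝ, |X| ≤ M → ∀ γ : ℂ, ‖γ - g‖ < ρ →
      low (-v₀ / g) ((g * p - v₀) / g ^ 2) (X / g ^ 2) (C / g) K g γ ≤
        (-par v₀ p C B g γ - X / g * γ.im) / γ.re := by
  have hC : 0 ≤ C := (abs_nonneg p).trans hp
  obtain ⟨K, hK, ρ, hρ, h1⟩ := rate_top hrc hg hM (par_contact (v₀ := v₀) (B := B) (rc := rc) hp)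
    hC hB
  refine ⟨K, hK, ρ, hρ, fun X hX γ hγ => ?_⟩
  have h2 := h1 X hX (γ - g) hγ
  rw [add_sub_cancel] at h2
  have e2 : par v₀ p C B g (g : ℂ) = v₀ := by
    unfold par
    simp
  have e3 : g + (γ - (g : ℂ)).re = γ.re := by
    rw [sub_re, ofReal_re]
    ring
  have e4 : (γ - (g : ℂ)).im = γ.im := by
    rw [sub_im, ofReal_im, sub_zero]
  rw [e2, e3, e4] at h2
  unfold low
  rw [e4]
  have e5 : (-par v₀ p C B g γ - X / g * γ.im) / γ.re =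
      -((par v₀ p C B g γ + X / g * γ.im) / γ.re) := by
    rw [← neg_div]
    congr 1
    ring
  rw [e5]
  have e6 : C * g * |γ.im| / g ^ 2 = C / g * |γ.im| := by
    field_simp
  have e7 : ((g * p - v₀) * (γ - ↑g).re + X * γ.im + C * g * |γ.im|) / g ^ 2 =
      (g * p - v₀) / g ^ 2 * (γ - ↑g).re + X / g ^ 2 * γ.im + C * g * |γ.im| / g ^ 2 := by
    ring
  rw [e7, e6] at h2
  have e8 : -v₀ / g = -(v₀ / g) := by ring
  rw [e8]
  linarith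

/-- **PARTNER.** At a contact point `g₀` on a stretch of length `> 6 C g₀` two branch points have the
same `S = T - γ T'`. -/
theorem partner (hB : Base Y h R C0 v G L) (HW : Win v U β C1 c V) (x : ℕ → ℝ)
    {g₀ r₀ x₁ x₂ b p C B rc : ℝ} {P : ℕ} {Tb : ℕ → ℂ → ℂ} {X : ℕ → ℝ} {Vm : ℂ → ℝ}
    {Λ : ℂ × ℂ → ℂ} (hrc : 0 < rc) (hBn : 0 ≤ B) (hcon : Contact (vI v U c V) C B rc g₀ p)
    (hSd : Sd (vI v U c V) Vm g₀ r₀ x₁ x₂ (vI v U c V g₀) b P Tb X)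
    (hS : Slt (DI v U c V) (LI L h U x c V) Λ (SB g₀ r₀ x₁ x₂ (vI v U c V g₀) b P Tb))
    (han : ∀ i < P, AnalyticAt ℂ (Tb (i + 1)) (g₀ : ℂ))
    (hnd : ∀ i < P, NDf Y h v L U x c V g₀ x₁ x₂ b P Tb Λ i) (hlen : 6 * C * g₀ < x₂ - x₁) :
    ∃ i < P, ∃ j < P, (Tb (i + 1) g₀).re < (Tb (j + 1) g₀).re ∧
      Tb (i + 1) g₀ - g₀ * deriv (Tb (i + 1)) g₀ = Tb (j + 1) g₀ - g₀ * deriv (Tb (j + 1)) g₀ := by
  have hg := hSd.g_pos
  have hC : 0 ≤ C := (abs_nonneg p).trans hcon.1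
  have hCg : 0 ≤ C * g₀ := mul_nonneg hC hg.le
  obtain ⟨v₀, hv₀⟩ : ∃ v₀ : ℝ, v₀ = vI v U c V g₀ := ⟨_, rfl⟩
  -- slopes
  have hle : ∀ i < P, ∀ᶠ γ in 𝓝 (g₀ : ℂ), -(Tb (i + 1) γ).im ≤ vI v U c V γ := fun i hi => by
    filter_upwards [isOpen_ball.mem_nhds (mem_ball_self hSd.r_pos)] with γ hγ
    exact hSd.Tb_vi i hi γ hγ
  have hsl : ∀ i < P, (Tb (i + 1) g₀ - g₀ * deriv (Tb (i + 1)) g₀).im = g₀ * p - v₀ ∧
      |(Tb (i + 1) g₀ - g₀ * deriv (Tb (i + 1)) g₀).re - (Tb (i + 1) g₀).re| ≤ C * g₀ := by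
    intro i hi
    rw [hv₀]
    exact slope_S hrc hg hcon (han i hi) (hSd.Tb_im i hi) (hle i hi)
  obtain ⟨S, hSe⟩ : ∃ S : ℕ → ℝ, S = fun i => (Tb i g₀ - g₀ * deriv (Tb i) g₀).re := ⟨_, rfl⟩
  -- the branch point in the middle
  obtain ⟨e, he⟩ : ∃ e : ℝ, e = (x₂ - x₁ - 6 * C * g₀) / 8 := ⟨_, rfl⟩
  have he0 : 0 < e := by
    rw [he]
    linarith
  obtain ⟨j, hj, hj1, hj2⟩ := exists_mid hB HW x hrc hBn hcon hSd hS
    (y₁ := x₁ + 2 * (C * g₀) + e) (y₂ := x₂ - 2 * (C * g₀) - e) (by linarith) (by linarith)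
    (by rw [he]; linarith)
  have hP : 0 < P := (Nat.zero_le j).trans_lt hj
  by_contra hno
  push Not at hno
  have hSne : ∀ i < P, i ≠ j → S (i + 1) ≠ S (j + 1) := by
    intro i hi hij hs
    have e1 : Tb (i + 1) g₀ - g₀ * deriv (Tb (i + 1)) g₀ =
        Tb (j + 1) g₀ - g₀ * deriv (Tb (j + 1)) g₀ := by
      apply Complex.ext
      · rw [hSe] at hs
        exact hs
      · rw [(hsl i hi).1, (hsl j hj).1]
    rcases lt_or_gt_of_ne hij with h1 | h1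
    · refine hno i hi j hj ?_ e1
      exact (hSd.Tb_r i hi).trans_le ((Geom_mono hSd (show i + 1 ≤ j from h1) hj.le).trans
        (hSd.Tb_l j hj).le)
    · refine hno j hj i hi ?_ e1.symm
      exact (hSd.Tb_r j hj).trans_le ((Geom_mono hSd (show j + 1 ≤ i from h1) hi.le).trans
        (hSd.Tb_l i hi).le)
  -- the rates
  have hrY : ∀ i : ℕ, ∃ K : ℝ, 0 < K ∧ ∃ ρ : ℝ, 0 < ρ ∧ (i < P → ∀ γ : ℂ, ‖γ - g₀‖ < ρ →
      |YB Tb (i + 1) γ - low (-v₀ / g₀) ((g₀ * p - v₀) / g₀ ^ 2) (S (i + 1) / g₀ ^ 2) 0 0 g₀ γ| ≤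
        K * ‖γ - g₀‖ ^ 2) := by
    intro i
    by_cases hi : i < P
    · obtain ⟨K, hK, ρ, hρ, h1⟩ := rate_YB hrc hg hcon (han i hi) (hSd.Tb_im i hi) (hle i hi)
      refine ⟨K, hK, ρ, hρ, fun _ γ hγ => ?_⟩
      have h2 := h1 γ hγ
      rw [← hv₀] at h2
      rw [hSe]
      exact h2
    · exact ⟨1, one_pos, 1, one_pos, fun h => absurd h hi⟩
  choose K hK ρ hρ hY using hrY
  obtain ⟨M, hM⟩ : ∃ M : ℝ, M = |x₁| + |x₂| := ⟨_, rfl⟩
  have hM0 : 0 ≤ M := by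
    rw [hM]
    positivity
  obtain ⟨KT, hKT, ρT, hρT, hT⟩ := rate_TX (v₀ := v₀) hrc hg hcon.1 hBn hM0
  obtain ⟨m, hm, hmi⟩ := exists_lb P fun i _ => hρ i
  obtain ⟨KY, hKY, hKi⟩ := exists_ub P K
  -- the new data
  obtain ⟨r', hr'⟩ : ∃ r' : ℝ, r' = min (min r₀ rc) (min m ρT) := ⟨_, rfl⟩
  have hr'0 : 0 < r' := by
    rw [hr']
    exact lt_min (lt_min hSd.r_pos hrc) (lt_min hm hρT)
  have hr'1 : r' ≤ r₀ := by
    rw [hr']
    exact (min_le_left _ _).trans (min_le_left _ _)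
  have hr'2 : r' ≤ rc := by
    rw [hr']
    exact (min_le_left _ _).trans (min_le_right _ _)
  have hr'3 : r' ≤ m := by
    rw [hr']
    exact (min_le_right _ _).trans (min_le_left _ _)
  have hr'4 : r' ≤ ρT := by
    rw [hr']
    exact (min_le_right _ _).trans (min_le_right _ _)
  obtain ⟨X', hSd', hX0, hXP⟩ := sd_change (Vm' := par v₀ p C B g₀) hSd hP (half_pos he0) hr'0 hr'1
    (par_cont _ _ _ _ _).continuousOn (by
      intro γ hγ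
      have h1 := hcon.2 (γ - g₀) (by
        rw [mem_ball, dist_eq_norm] at hγ
        linarith)
      rw [add_sub_cancel] at h1
      unfold par
      rw [hv₀]
      exact h1) (by
      unfold par
      simp [hv₀])
  have hS' := slt_mono hS hr'1 (isOpen_SB hSd')
  have hXb : ∀ i ≤ P, |X' i| ≤ M := by
    intro i hi
    have h1 := Geom_mono hSd' (Nat.zero_le i) hi
    have h2 := Geom_mono hSd' hi le_rfl
    have h3 := hSd'.X_l
    have h4 := hSd'.X_r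
    have h5 := neg_abs_le x₁
    have h6 := le_abs_self x₂
    have h7 := abs_nonneg x₁
    have h8 := abs_nonneg x₂
    rw [hM, abs_le]
    constructor <;> linarith
  obtain ⟨ξ, hξ⟩ := exists_xi (Pool.Agent.MP_ae5b4e_an_MT.ls_win hB HW x)
  obtain ⟨w, r, hw, hr, h2r, hBo, Z, f, g, A, B', hBC, hBZ⟩ := win_BC hB HW x hξ hSd' hS'
  have hVF := vf_win hB HW x hξ
  have hy1 : -vI v U c V g₀ / g₀ - w / 2 < -vI v U c V g₀ / g₀ - w / 4 := by linarith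
  have hy2 : -vI v U c V g₀ / g₀ - w / 4 < -vI v U c V g₀ / g₀ := by linarith
  have hrr : r < r' := by linarith
  refine hnd j hj ξ hξ _ _ X' hSd' hS' w r hr hBo Z f g A B' hBC hBZ _ hy1 hy2 ?_
  have hg2 : (0 : ℝ) < g₀ ^ 2 := by positivity
  have hmid := (abs_le.1 (hsl j hj).2)
  have hSj : (Tb (j + 1) g₀ - g₀ * deriv (Tb (j + 1)) g₀).re = S (j + 1) := by rw [hSe]
  rw [hSj] at hmid
  refine fbi (α := (g₀ * p - v₀) / g₀ ^ 2) (K := max KY KT) (C := C / g₀)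
    (s := fun i => S i / g₀ ^ 2) (t := fun i => X' i / g₀ ^ 2) hr hVF.ε_pos hVF.ε_lim hBC
    (div_nonneg hC hg.le) hy1 hy2 ?_ ?_ hj ?_ ?_ ?_
  · intro i hi γ hγ
    rw [mem_ball, dist_eq_norm] at hγ
    have h1 := hY i hi γ (by linarith [hmi i hi])
    rw [← hv₀]
    refine h1.trans ?_
    have h2 : K i ≤ max KY KT := (hKi i hi).trans (le_max_left _ _)
    exact mul_le_mul_of_nonneg_right h2 (sq_nonneg _)
  · intro i hi γ hγ
    rw [mem_ball, dist_eq_norm] at hγ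
    have h1 := hT (X' i) (hXb i hi) γ (by linarith)
    rw [← hv₀]
    refine le_trans ?_ h1
    unfold low
    have h2 : KT * ‖γ - g₀‖ ^ 2 ≤ max KY KT * ‖γ - g₀‖ ^ 2 :=
      mul_le_mul_of_nonneg_right (le_max_right _ _) (sq_nonneg _)
    linarith
  · show X' 0 / g₀ ^ 2 + C / g₀ < S (j + 1) / g₀ ^ 2
    have e1 : C / g₀ = C * g₀ / g₀ ^ 2 := by
      field_simp
    rw [e1, ← add_div]
    apply div_lt_div_of_pos_right _ hg2
    linarith [hmid.1]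
  · show S (j + 1) / g₀ ^ 2 < X' P / g₀ ^ 2 - C / g₀
    have e1 : C / g₀ = C * g₀ / g₀ ^ 2 := by
      field_simp
    rw [e1, ← sub_div]
    apply div_lt_div_of_pos_right _ hg2
    linarith [hmid.2]
  · intro i hi hij h1
    apply hSne i hi hij
    have h2 : S (i + 1) / g₀ ^ 2 = S (j + 1) / g₀ ^ 2 := h1
    field_simp at h2
    exact h2

end Pool.Agent.MP_ae5b4e_an_A5
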