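import Pool.Agent.Lib.MP_ae5b4e_an_A5.Defs
import Pool.Agent.Lib.MP_ae5b4e_an_T.T4TipP

/-!
# MP_ae5b4e_an, POR (iii), STEP A, block A5: the tips of section T give the tips of block ATK
-/

set_option autoImplicit false

noncomputable section

namespace Pool.Agent.MP_ae5b4e_an_A5

open Complex Set Filter Topology Metric
open Pool.Agent.MP_ae5b4e_an_NB2 (Sys)
open Pool.Agent.MP_ae5b4e_an_PB (Base)
open Pool.Agent.MP_ae5b4e_an_M
open Pool.Agent.MP_ae5b4e_an_A1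
open Pool.Agent.MP_ae5b4e_an_ATK (TipO)
open Pool.Agent.MP_ae5b4e_an_T (Lb TAt Hp LimAt tip_path W0 W0_sq gz gz_ne alT)
open Pool.Agent.MP_ae5b4e_an_WB (tipc)
open Pool.Agent.MP_ae5b4e_an_WD (dt)

private theorem TipT_cos {z : ℝ → ℂ} (hz : Tendsto (fun s => (z s).re) (𝓝[>] 0) atBot) :
    Tendsto (fun s => ‖cos (z s / (2 * I))‖) (𝓝[>] 0) atTop := by
  have h1 : ∀ w : ℂ, (Real.exp (-w.re / 2) - Real.exp (w.re / 2)) / 2 ≤ ‖cos (w / (2 * I))‖ := by
    intro w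
    have e1 : w / (2 * I) * I = w / 2 := by
      field_simp
    have e2 : -(w / (2 * I)) * I = -w / 2 := by
      field_simp
    have e3 : cos (w / (2 * I)) = (exp (w / 2) + exp (-w / 2)) / 2 := by
      rw [Complex.cos, e1, e2]
    rw [e3, norm_div, Complex.norm_ofNat]
    apply div_le_div_of_nonneg_right _ (by norm_num)
    have e4 : ‖exp (-w / 2)‖ = Real.exp (-w.re / 2) := by
      rw [Complex.norm_exp]
      congr 1
      simp
    have e5 : ‖exp (w / 2)‖ = Real.exp (w.re / 2) := by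
      rw [Complex.norm_exp]
      congr 1
      simp
    rw [← e4, ← e5]
    have h2 := norm_sub_norm_le (exp (-w / 2)) (-exp (w / 2))
    rw [norm_neg, sub_neg_eq_add, add_comm] at h2
    exact h2
  refine tendsto_atTop_mono (fun s => h1 (z s)) ?_
  have h3 : Tendsto (fun s => Real.exp (-(z s).re / 2)) (𝓝[>] 0) atTop := by
    apply Real.tendsto_exp_atTop.comp
    have h4 : Tendsto (fun s => -(z s).re) (𝓝[>] 0) atTop := tendsto_neg_atBot_atTop.comp hz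
    exact h4.atTop_div_const (by norm_num)
  have h5 : Tendsto (fun s => Real.exp ((z s).re / 2)) (𝓝[>] 0) (𝓝 0) := by
    apply Real.tendsto_exp_atBot.comp
    exact hz.atBot_div_const (by norm_num)
  have h6 : Tendsto (fun s => Real.exp (-(z s).re / 2) + -Real.exp ((z s).re / 2)) (𝓝[>] 0)
      atTop := h3.atTop_add h5.neg
  have h7 := h6.atTop_div_const (show (0 : ℝ) < 2 by norm_num)
  refine h7.congr fun s => ?_
  rw [← sub_eq_add_neg]

/-- TYPE TIP of section T gives TYPE TIP of block ATK. -/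
theorem tipO_of_TAt {q : ℂ → ℂ} {C : ℝ} {vi : ℂ → ℝ} {L : ℂ × ℂ → ℂ} (h : Lb q C vi L) {γ : ℝ}
    (hγ : 0 < γ) {x : ℝ} {l : ℂ} (hl : l.im < 0)
    (hT : TAt q γ (vi γ) (fun τ => L (τ, γ)) x l) (hreg : deriv q l ≠ 0) {Λ : ℂ × ℂ → ℂ} {τb : ℂ}
    (hτ : τb = (x : ℂ) - vi γ * I)
    (hΛ : ∀ᶠ s : ℝ in 𝓝[>] 0, (fun τ => Λ (τ, (γ : ℂ))) =ᶠ[𝓝 (τb - I * s)]
      fun τ => L (τ, (γ : ℂ))) : TipO q Λ γ τb l := by
  have hγ0 : (γ : ℂ) ≠ 0 := by exact_mod_cast hγ.ne'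
  have htip := hT.2.1
  have htc : tipc ≠ 0 := by
    rw [← W0_sq]
    unfold W0
    exact pow_ne_zero 2 (mul_ne_zero (by exact_mod_cast (by positivity : (Real.exp 1 / 2) ≠ 0)) I_ne_zero)
  have hW0 : W0 ≠ 0 := by
    intro h0
    apply htc
    rw [← W0_sq, h0]
    ring
  have hpt : ∀ s : ℝ, τb - I * s = (x : ℂ) - (vi γ + s : ℝ) * I := by
    intro s
    rw [hτ]
    push_cast
    ring
  refine ⟨hl, ?_, hreg, ?_, ?_⟩
  · intro h0
    rw [h0, mul_zero] at htip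
    exact htc htip.symm
  · have h1 : Tendsto (fun s : ℝ => (x : ℂ) - (vi γ + s : ℝ) * I) (𝓝[>] 0)
        (𝓝[Hp (vi γ)] ((x : ℂ) - vi γ * I)) := by
      refine tendsto_nhdsWithin_iff.2 ⟨?_, ?_⟩
      · have hc : Continuous fun s : ℝ => (x : ℂ) - (vi γ + s : ℝ) * I := by fun_prop
        have := hc.tendsto 0
        simp only [add_zero] at this
        exact this.mono_left nhdsWithin_le_nhds
      · filter_upwards [self_mem_nhdsWithin] with s hs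
        have hs' : 0 < s := hs
        show ((x : ℂ) - (vi γ + s : ℝ) * I).im < -vi γ
        simp only [sub_im, ofReal_im, mul_im, ofReal_re, I_im, mul_one, I_re, mul_zero, add_zero]
        linarith
    have h2 := hT.1.comp h1
    refine h2.congr' ?_
    filter_upwards [hΛ] with s hs
    show L ((x : ℂ) - (vi γ + s : ℝ) * I, (γ : ℂ)) = Λ (τb - I * s, (γ : ℂ))
    rw [← hpt]
    exact hs.eq_of_nhds.symm
  · obtain ⟨s2, z, hs2, -, hz, -, hzr⟩ := tip_path h hγ hl hT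
    refine (TipT_cos hzr).congr' ?_
    filter_upwards [hΛ, Ioc_mem_nhdsGT hs2] with s hs hs'
    obtain ⟨h1, h2, h3⟩ := hz s hs'
    have hgz := gz_ne h1
    rw [← hτ] at h2 h3
    have e1 : Λ (τb - I * s, (γ : ℂ)) = L (τb - I * s, (γ : ℂ)) := hs.eq_of_nhds
    have e2 : deriv (fun τ => Λ (τ, (γ : ℂ))) (τb - I * s) = dt L (τb - I * s, (γ : ℂ)) :=
      hs.deriv_eq
    rw [e1, e2, h3]
    have e3 : q (L (τb - I * s, (γ : ℂ))) * alT (z s, (γ : ℂ)) ^ 2 = (z s / (2 * I)) ^ 2 := by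
      have e4 : (γ : ℂ) ^ 2 * (q (L (τb - I * s, (γ : ℂ))) * alT (z s, (γ : ℂ)) ^ 2) =
          (γ : ℂ) ^ 2 * (z s / (2 * I)) ^ 2 := by
        rw [← mul_assoc, h2]
        show tipc * gz (z s) ^ 2 * ((γ : ℂ) * z s / (2 * I * (W0 * gz (z s)))) ^ 2 = _
        rw [← W0_sq]
        field_simp
      exact mul_left_cancel₀ (pow_ne_zero 2 hγ0) e4
    rw [e3, C1f_sq]

variable {Y : Sys} {h R C0 : ℝ} {v : ℂ → ℝ} {G L : ℂ × ℂ → ℂ} {U : Ultrafilter ℕ} {β C1 : ℝ}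
  {c V : ℕ → ℝ}

/-- **A TIP IS NOT DEFICIENT**, from the types of section T. -/
theorem ndf_TAt (hB : Base Y h R C0 v G L) (HW : Win v U β C1 c V) (x : ℕ → ℝ) {Cq : ℝ}
    (hL : Lb (qI Y h U x c V) Cq (vI v U c V) (LI L h U x c V))
    {g₀ r₀ x₁ x₂ b : ℝ} {P : ℕ} {Tb : ℕ → ℂ → ℂ} {X : ℕ → ℝ} {Vm : ℂ → ℝ} {Λ : ℂ × ℂ → ℂ}
    (hSd : Sd (vI v U c V) Vm g₀ r₀ x₁ x₂ (vI v U c V g₀) b P Tb X)
    (hS : Slt (DI v U c V) (LI L h U x c V) Λ (SB g₀ r₀ x₁ x₂ (vI v U c V g₀) b P Tb))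
    {i : ℕ} (hi : i < P) {l : ℂ} (hl : l.im < 0) (hreg : deriv (qI Y h U x c V) l ≠ 0)
    (hT : TAt (qI Y h U x c V) g₀ (vI v U c V g₀) (fun τ => LI L h U x c V (τ, g₀))
      (Tb (i + 1) g₀).re l) :
    NDf Y h v L U x c V g₀ x₁ x₂ b P Tb Λ i := by
  have hg := hSd.g_pos
  have hτ : Tb (i + 1) g₀ = ((Tb (i + 1) g₀).re : ℂ) - vI v U c V g₀ * I := by
    apply Complex.ext
    · simp
    · rw [hSd.Tb_im i hi]
      simp
  refine ndf_tip hB HW x hi (tipO_of_TAt hL hg hl hT hreg hτ ?_)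
  -- the points below the tip are in `SB` and in the limit domain
  have hO : IsOpen (SB g₀ r₀ x₁ x₂ (vI v U c V g₀) b P Tb ∩ DI v U c V) :=
    hS.S_open.inter (DI_open hB.nv hB.R_pos HW)
  have h1 : ∀ s : ℝ, 0 < s → s < b →
      (Tb (i + 1) g₀ - I * s, (g₀ : ℂ)) ∈ SB g₀ r₀ x₁ x₂ (vI v U c V g₀) b P Tb ∩ DI v U c V := by
    intro s hs hsb
    have hre : (Tb (i + 1) g₀ - I * s).re = (Tb (i + 1) g₀).re := by simp
    have him : (Tb (i + 1) g₀ - I * s).im = -vI v U c V g₀ - s := by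
      rw [sub_im, hSd.Tb_im i hi]
      simp
    have m1 := Geom_mono hSd (Nat.zero_le i) hi.le
    have m2 := Geom_mono hSd (show i + 1 ≤ P from hi) le_rfl
    have m3 := hSd.Tb_l i hi
    have m4 := hSd.Tb_r i hi
    refine ⟨⟨mem_ball_self hSd.r_pos, ?_, ?_, ?_, ?_⟩, ?_⟩
    · show x₁ < (Tb (i + 1) g₀ - I * s).re
      rw [hre]
      linarith [hSd.X_l]
    · show (Tb (i + 1) g₀ - I * s).re < x₂
      rw [hre]
      linarith [hSd.X_r]
    · show |(Tb (i + 1) g₀ - I * s).im + vI v U c V g₀| < b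
      rw [him, show -vI v U c V g₀ - s + vI v U c V g₀ = -s by ring, abs_neg, abs_of_pos hs]
      exact hsb
    · rintro j hj ⟨-, h2⟩
      have h3 : (Tb (j + 1) g₀).im ≤ (Tb (i + 1) g₀ - I * s).im := h2
      rw [him, hSd.Tb_im j hj] at h3
      linarith
    · show (Tb (i + 1) g₀ - I * s).im < -vI v U c V g₀
      rw [him]
      linarith
  filter_upwards [Ioo_mem_nhdsGT hSd.b_pos] with s hs
  have hc : ContinuousAt (fun τ : ℂ => ((τ, (g₀ : ℂ)) : ℂ × ℂ)) (Tb (i + 1) g₀ - I * s) := by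
    fun_prop
  filter_upwards [hc.eventually (hO.mem_nhds (h1 s hs.1 hs.2))] with τ hτ'
  exact hS.eq _ hτ'.1 hτ'.2

end Pool.Agent.MP_ae5b4e_an_A5
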